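import Pool.Agent.MWI.StmtsE

/-!
# Row OSP of squad MWI: rearrangement of a factor by `OS`
-/

set_option autoImplicit false

namespace Pool.Agent.MWI.H81

open Pool.Agent.Helper14_MV Pool.Agent.Helper2_MV Pool.Agent.MWF Pool.Agent.MWI

theorem osp : OspStmt := by
  intro β hOS F F' hp
  induction hp with
  | nil => intro A B _ _; exact RR.refl _
  | cons x h ih =>
    rename_i l1 l2
    intro A B hA hc
    have h1 : A ++ (x :: l1 ++ B) = (A ++ [x]) ++ (l1 ++ B) := by simp
    have h2 : A ++ (x :: l2 ++ B) = (A ++ [x]) ++ (l2 ++ B) := by simp
    rw [h1, h2]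
    apply ih
    · intro c hc'
      exact List.mem_append_left _ (hA c (List.mem_cons_of_mem _ hc'))
    · have e1 : (l1.filter (fun c => decide ((A ++ [x]).count c < 2))).length ≤
          (l1.filter (fun c => decide (A.count c < 2))).length := by
        apply List.Sublist.length_le
        apply List.monotone_filter_right
        intro c hc'
        simp only [List.count_append, decide_eq_true_eq] at hc' ⊢
        omega
      have e2 : (l1.filter (fun c => decide (A.count c < 2))).length ≤
          ((x :: l1).filter (fun c => decide (A.count c < 2))).length :=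
        ((List.sublist_cons_self x l1).filter _).length_le
      omega
  | swap x y l =>
    intro A B hA hc
    have h1 : A ++ (y :: x :: l ++ B) = A ++ y :: x :: (l ++ B) := by simp
    have h2 : A ++ (x :: y :: l ++ B) = A ++ x :: y :: (l ++ B) := by simp
    rw [h1, h2]
    have hx : x ∈ A := hA x (by simp)
    have hy : y ∈ A := hA y (by simp)
    by_cases h2y : 2 ≤ A.count y
    · exact hOS A (l ++ B) y x h2y hx
    · by_cases h2x : 2 ≤ A.count x
      · exact (hOS A (l ++ B) x y h2x hy).symm
      · exfalso
        rw [List.filter_cons_of_pos (by simp; omega), List.filter_cons_of_pos (by simp; omega)] at hc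
        simp at hc
  | trans h1 h2 ih1 ih2 =>
    intro A B hA hc
    refine β.trans (ih1 A B hA hc) (ih2 A B ?_ ?_)
    · intro c hc'
      exact hA c (h1.mem_iff.mpr hc')
    · rw [← (h1.filter _).length_eq]
      exact hc

end Pool.Agent.MWI.H81
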